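import Pool.Agent.H460BZ.Lemma
import Pool.Agent.H460BZ.Tail
import Pool.Agent.PZ871.Pl
import Pool.Agent.TH84.HC.Gauss

/-!
# Balancing with respect to symmetric convex sets of positive Gaussian measure
-/

set_option autoImplicit false

namespace Pool.Agent.V11188.VB

open MeasureTheory ProbabilityTheory Set
open scoped ENNReal InnerProductSpace Pointwise
open Pool.Agent.H460BZ (EE key_lemma star star_closed star_convex star_symm star_step)

variable {n : ℕ}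

/-- the bodies of the backward construction -/
def It (K : Set (EE n)) : ℕ → (ℕ → EE n) → Set (EE n)
  | 0, _ => K
  | m + 1, u => star (It K m (fun i => u (i + 1))) (u 0)

theorem It_props {K : Set (EE n)} (hK : IsClosed K) (hc : Convex ℝ K) (hs : ∀ x ∈ K, -x ∈ K)
    (hγ : 99 / 100 ≤ (stdGaussian (EE n) K).toReal) :
    ∀ (m : ℕ) (u : ℕ → EE n), (∀ i < m, ‖u i‖ = 1 / 100) →
      IsClosed (It K m u) ∧ Convex ℝ (It K m u) ∧ (∀ x ∈ It K m u, -x ∈ It K m u) ∧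
        99 / 100 ≤ (stdGaussian (EE n) (It K m u)).toReal := by
  intro m
  induction m with
  | zero => intro u _; exact ⟨hK, hc, hs, hγ⟩
  | succ m ih =>
    intro u hu
    obtain ⟨h1, h2, h3, h4⟩ := ih (fun i => u (i + 1)) (fun i hi => hu (i + 1) (by omega))
    have hkey := key_lemma n _ h1 h2 (u 0) (hu 0 (by omega)) h4
    exact ⟨star_closed h1 _, star_convex h2 _, star_symm h3 _,
      h4.trans (ENNReal.toReal_mono (measure_ne_top _ _) hkey)⟩

theorem It_signs {K : Set (EE n)} (hK : IsClosed K) (hc : Convex ℝ K) (hs : ∀ x ∈ K, -x ∈ K)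
    (hγ : 99 / 100 ≤ (stdGaussian (EE n) K).toReal) :
    ∀ (m : ℕ) (u : ℕ → EE n), (∀ i < m, ‖u i‖ = 1 / 100) →
      ∀ x ∈ It K m u, ∃ σ : ℕ → ℝ, (∀ i, σ i = 1 ∨ σ i = -1) ∧
        x + ∑ i ∈ Finset.range m, σ i • u i ∈ K := by
  intro m
  induction m with
  | zero =>
    intro u _ x hx
    exact ⟨fun _ => 1, fun _ => Or.inl rfl, by simpa [It] using hx⟩
  | succ m ih =>
    intro u hu x hx
    have hu' : ∀ i < m, ‖u (i + 1)‖ = 1 / 100 := fun i hi => hu (i + 1) (by omega)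
    obtain ⟨h1, h2, h3, h4⟩ := It_props hK hc hs hγ m (fun i => u (i + 1)) hu'
    obtain ⟨s, hs1, hs2⟩ : ∃ s : ℝ, (s = 1 ∨ s = -1) ∧
        x + s • u 0 ∈ It K m (fun i => u (i + 1)) := by
      rcases star_step h2 (u 0) hx with h | h
      · exact ⟨1, Or.inl rfl, by simpa using h⟩
      · exact ⟨-1, Or.inr rfl, by simpa [sub_eq_add_neg] using h⟩
    obtain ⟨σ, hσ1, hσ2⟩ := ih (fun i => u (i + 1)) hu' _ hs2
    refine ⟨fun i => match i with | 0 => s | i + 1 => σ i, ?_, ?_⟩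
    · intro i
      rcases i with _ | i
      · exact hs1
      · exact hσ1 i
    · rw [Finset.sum_range_succ']
      have e : x + (∑ i ∈ Finset.range m, σ i • u (i + 1) + s • u 0) =
          x + s • u 0 + ∑ i ∈ Finset.range m, σ i • u (i + 1) := by abel
      show x + (∑ i ∈ Finset.range m, σ i • u (i + 1) + s • u 0) ∈ K
      rw [e]
      exact hσ2

theorem zero_mem_of_symm {K : Set (EE n)} (hc : Convex ℝ K) (hs : ∀ x ∈ K, -x ∈ K)
    (hne : K.Nonempty) : (0 : EE n) ∈ K := by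
  obtain ⟨x, hx⟩ := hne
  have := hc hx (hs x hx) (a := 1 / 2) (b := 1 / 2) (by norm_num) (by norm_num) (by norm_num)
  simpa using this

theorem nonempty_of_pos {K : Set (EE n)} {p : ℝ} (hp : 0 < p)
    (h : p ≤ (stdGaussian (EE n) K).toReal) : K.Nonempty := by
  by_contra hcon
  rw [Set.not_nonempty_iff_eq_empty] at hcon
  rw [hcon, measure_empty, ENNReal.toReal_zero] at h
  linarith

/-- balancing vectors of norm exactly `1/100` -/
theorem bal_eq {K : Set (EE n)} (hK : IsClosed K) (hc : Convex ℝ K) (hs : ∀ x ∈ K, -x ∈ K)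
    (hγ : 99 / 100 ≤ (stdGaussian (EE n) K).toReal) (m : ℕ) (u : ℕ → EE n)
    (hu : ∀ i < m, ‖u i‖ = 1 / 100) :
    ∃ σ : ℕ → ℝ, (∀ i, σ i = 1 ∨ σ i = -1) ∧ ∑ i ∈ Finset.range m, σ i • u i ∈ K := by
  obtain ⟨h1, h2, h3, h4⟩ := It_props hK hc hs hγ m u hu
  have h0 := zero_mem_of_symm h2 h3 (nonempty_of_pos (by norm_num) h4)
  obtain ⟨σ, h5, h6⟩ := It_signs hK hc hs hγ m u hu 0 h0
  exact ⟨σ, h5, by simpa using h6⟩

/-- forgetting the first coordinate -/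
def tl (x : EE (n + 1)) : EE n := WithLp.toLp 2 (fun i => x (Fin.succ i))

/-- adding a first coordinate -/
def cn (a : ℝ) (x : EE n) : EE (n + 1) := WithLp.toLp 2 (Fin.cons a (fun i => x i))

theorem tl_cn (a : ℝ) (x : EE n) : tl (cn a x) = x := by
  ext i; simp [tl, cn]

theorem tl_add (x y : EE (n + 1)) : tl (x + y) = tl x + tl y := by
  ext i; simp [tl]

theorem tl_smul (a : ℝ) (x : EE (n + 1)) : tl (a • x) = a • tl x := by
  ext i; simp [tl]

theorem tl_neg (x : EE (n + 1)) : tl (-x) = -tl x := by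
  ext i; simp [tl]

theorem tl_sum (s : Finset ℕ) (f : ℕ → EE (n + 1)) : tl (∑ i ∈ s, f i) = ∑ i ∈ s, tl (f i) := by
  ext i; simp [tl]

theorem tl_cont : Continuous (tl : EE (n + 1) → EE n) := by
  unfold tl
  fun_prop

theorem norm_cn (a : ℝ) (x : EE n) : ‖cn a x‖ ^ 2 = a ^ 2 + ‖x‖ ^ 2 := by
  rw [EuclideanSpace.real_norm_sq_eq, EuclideanSpace.real_norm_sq_eq, Fin.sum_univ_succ]
  simp [cn]

theorem meas_tl {K : Set (EE n)} (hK : MeasurableSet K) :
    stdGaussian (EE (n + 1)) (tl ⁻¹' K) = stdGaussian (EE n) K := by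
  have hm : Measurable (WithLp.toLp 2 : (Fin n → ℝ) → EE n) := by fun_prop
  have hm' : Measurable (WithLp.toLp 2 : (Fin (n + 1) → ℝ) → EE (n + 1)) := by fun_prop
  rw [← map_pi_eq_stdGaussian, ← map_pi_eq_stdGaussian, Measure.map_apply hm hK,
    Measure.map_apply hm' (tl_cont.measurable hK)]
  have hmp := Pool.Agent.H902R3.ZA.PLNaux.mp n
  have h1 := hmp.measure_preimage_equiv
    (WithLp.toLp 2 ⁻¹' (tl ⁻¹' K) : Set (Fin (n + 1) → ℝ))
  unfold Pool.Agent.H902R3.ZA.gm at h1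
  rw [← h1]
  have h2 : (Pool.Agent.H902R3.ZA.PLNaux.ee n).symm ⁻¹'
      (WithLp.toLp 2 ⁻¹' (tl ⁻¹' K) : Set (Fin (n + 1) → ℝ)) =
      Set.univ ×ˢ (WithLp.toLp 2 ⁻¹' K : Set (Fin n → ℝ)) := by
    ext ⟨z, y⟩
    simp only [mem_preimage, mem_prod, mem_univ, true_and]
    have : tl (WithLp.toLp 2 ((Pool.Agent.H902R3.ZA.PLNaux.ee n).symm (z, y)) : EE (n + 1)) =
        WithLp.toLp 2 y := by
      ext i
      simp [tl, Pool.Agent.H902R3.ZA.PLNaux.ee_symm_succ]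
    rw [this]
  rw [h2, Measure.prod_prod, measure_univ, one_mul]

/-- balancing vectors of norm at most `1/100` -/
theorem bal_le {K : Set (EE n)} (hK : IsClosed K) (hc : Convex ℝ K) (hs : ∀ x ∈ K, -x ∈ K)
    (hγ : 99 / 100 ≤ (stdGaussian (EE n) K).toReal) (m : ℕ) (u : ℕ → EE n)
    (hu : ∀ i < m, ‖u i‖ ≤ 1 / 100) :
    ∃ σ : ℕ → ℝ, (∀ i, σ i = 1 ∨ σ i = -1) ∧ ∑ i ∈ Finset.range m, σ i • u i ∈ K := by
  have hK' : IsClosed (tl ⁻¹' K : Set (EE (n + 1))) := hK.preimage tl_cont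
  have hc' : Convex ℝ (tl ⁻¹' K : Set (EE (n + 1))) := by
    intro x hx y hy a b ha hb hab
    show tl (a • x + b • y) ∈ K
    rw [tl_add, tl_smul, tl_smul]
    exact hc hx hy ha hb hab
  have hs' : ∀ x ∈ (tl ⁻¹' K : Set (EE (n + 1))), -x ∈ (tl ⁻¹' K : Set (EE (n + 1))) := by
    intro x hx
    show tl (-x) ∈ K
    rw [tl_neg]
    exact hs _ hx
  obtain ⟨σ, h1, h2⟩ := bal_eq hK' hc' hs' (by rwa [meas_tl hK.measurableSet]) m
    (fun i => cn (Real.sqrt ((1 / 100) ^ 2 - ‖u i‖ ^ 2)) (u i)) (by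
      intro i hi
      have h3 := norm_cn (Real.sqrt ((1 / 100) ^ 2 - ‖u i‖ ^ 2)) (u i)
      have h4 : ‖u i‖ ^ 2 ≤ (1 / 100) ^ 2 := pow_le_pow_left₀ (norm_nonneg _) (hu i hi) 2
      rw [Real.sq_sqrt (by linarith)] at h3
      have h5 : ‖cn (Real.sqrt ((1 / 100) ^ 2 - ‖u i‖ ^ 2)) (u i)‖ ^ 2 = (1 / 100) ^ 2 := by
        linarith
      exact (pow_left_inj₀ (norm_nonneg _) (by norm_num) (by norm_num)).1 h5)
  refine ⟨σ, h1, ?_⟩
  have h3 : tl (∑ i ∈ Finset.range m, σ i • cn (Real.sqrt ((1 / 100) ^ 2 - ‖u i‖ ^ 2)) (u i)) ∈ K :=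
    h2
  rw [tl_sum] at h3
  simpa only [tl_smul, tl_cn] using h3

end Pool.Agent.V11188.VB
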