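import Pool.Agent.V11188.VB.A

/-!
# Inradius, concentration and dilation of symmetric convex sets
-/

set_option autoImplicit false

namespace Pool.Agent.V11188.VB

open MeasureTheory ProbabilityTheory Set
open scoped ENNReal InnerProductSpace Pointwise
open Pool.Agent.H460BZ (EE)

variable {n : ℕ}

theorem gauss_le (a : ℝ) (ha : 0 ≤ a) : (gaussianReal 0 1 (Icc (-a) a)).toReal ≤ a := by
  rw [Pool.Agent.H460BZ.meas_Icc (-a) a (by linarith)]
  rw [ENNReal.toReal_ofReal (intervalIntegral.integral_nonneg (by linarith)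
    (fun x _ => Pool.Agent.H460BZ.φ_nonneg x))]
  have h1 : ∀ x ∈ Icc (-a) a, Pool.Agent.H460BZ.φ x ≤ 1 / 2 := by
    intro x _
    rw [Pool.Agent.H460BZ.φ_eq]
    have h2 : Real.exp (-(x ^ 2 / 2)) ≤ 1 := Real.exp_le_one_iff.2 (by nlinarith [sq_nonneg x])
    have h3 : (Real.sqrt (2 * Real.pi))⁻¹ ≤ 1 / 2 := by
      rw [one_div]
      apply inv_anti₀ (by norm_num)
      apply Real.le_sqrt_of_sq_le
      nlinarith [Real.pi_gt_three]
    calc (Real.sqrt (2 * Real.pi))⁻¹ * Real.exp (-(x ^ 2 / 2)) ≤ 1 / 2 * 1 :=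
          mul_le_mul h3 h2 (Real.exp_nonneg _) (by norm_num)
      _ = 1 / 2 := by norm_num
  have h2 := intervalIntegral.integral_mono_on (μ := volume) (by linarith : -a ≤ a)
    (Pool.Agent.H460BZ.φ_cont.intervalIntegrable _ _)
    (continuous_const.intervalIntegrable _ _ : IntervalIntegrable (fun _ => (1/2:ℝ)) volume (-a) a)
    h1
  rw [intervalIntegral.integral_const] at h2
  simp only [smul_eq_mul] at h2
  linarith

/-- a slab of half-width `a` has Gaussian measure at most `a` -/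
theorem slab_le (e : EE n) (he : ‖e‖ = 1) (a : ℝ) (ha : 0 ≤ a) :
    (stdGaussian (EE n) {x | |⟪e, x⟫_ℝ| ≤ a}).toReal ≤ a := by
  have h1 := Pool.Agent.H460BZ.map_inner e
  rw [he, one_pow, Real.toNNReal_one] at h1
  have h2 : {x : EE n | |⟪e, x⟫_ℝ| ≤ a} = (fun x => ⟪e, x⟫_ℝ) ⁻¹' (Icc (-a) a) := by
    ext x
    simp only [mem_preimage, mem_Icc, mem_ofPred_eq, abs_le]
  have h3 : Measurable (fun x : EE n => ⟪e, x⟫_ℝ) := by fun_prop
  rw [h2, ← Measure.map_apply h3 measurableSet_Icc, h1]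
  exact gauss_le a ha

/-- a symmetric closed convex set of Gaussian measure at least `p` contains the open ball of
radius `p` -/
theorem inradius {K : Set (EE n)} (hK : IsClosed K) (hc : Convex ℝ K) (hs : ∀ x ∈ K, -x ∈ K)
    (p : ℝ) (hp : 0 < p) (hγ : p ≤ (stdGaussian (EE n) K).toReal) :
    Metric.ball 0 p ⊆ K := by
  intro x₀ hx₀
  by_contra hcon
  obtain ⟨f, c, hf1, hf2⟩ := geometric_hahn_banach_closed_point hc hK hcon
  have h0 := zero_mem_of_symm hc hs (nonempty_of_pos hp hγ)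
  have hc0 : 0 < c := by simpa using hf1 0 h0
  obtain ⟨w, hw⟩ := (InnerProductSpace.toDual ℝ (EE n)).surjective f
  have hfw : ∀ x, f x = ⟪w, x⟫_ℝ := by
    intro x
    rw [← hw]
    simp
  have hw0 : w ≠ 0 := by
    rintro rfl
    rw [hfw, inner_zero_left] at hf2
    linarith
  have hwn : 0 < ‖w‖ := norm_pos_iff.2 hw0
  have hx0n : ‖x₀‖ < p := by simpa using hx₀
  have hcs : ⟪w, x₀⟫_ℝ ≤ ‖w‖ * ‖x₀‖ := real_inner_le_norm _ _
  have hsub : K ⊆ {x : EE n | |⟪(‖w‖⁻¹ : ℝ) • w, x⟫_ℝ| ≤ ‖x₀‖} := by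
    intro x hx
    have h1 := hf1 x hx
    have h2 := hf1 _ (hs x hx)
    rw [hfw] at h1 h2 hf2
    rw [inner_neg_right] at h2
    simp only [mem_ofPred_eq]
    rw [real_inner_smul_left, abs_mul, abs_of_pos (inv_pos.2 hwn), inv_mul_le_iff₀ hwn, abs_le]
    constructor <;> linarith
  have h1 := slab_le ((‖w‖⁻¹ : ℝ) • w) (by
    rw [norm_smul, norm_inv, norm_norm, inv_mul_cancel₀ hwn.ne']) ‖x₀‖ (norm_nonneg _)
  have h2 := ENNReal.toReal_mono (measure_ne_top _ _) (measure_mono (μ := stdGaussian (EE n)) hsub)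
  linarith

/-- the Gaussian density -/
noncomputable def gd (n : ℕ) (x : EE n) : ℝ := (2 * Real.pi) ^ (-(n:ℝ)/2) * Real.exp (-‖x‖^2/2)

theorem gd_pos (x : EE n) : 0 < gd n x := by
  unfold gd
  positivity

theorem par (x y : EE n) : ‖(1/2:ℝ) • (x + y)‖ ^ 2 = ‖x‖ ^ 2 / 2 + ‖y‖ ^ 2 / 2 - ‖x - y‖ ^ 2 / 4 := by
  rw [norm_smul, mul_pow]
  have h1 := parallelogram_law_with_norm ℝ x y
  have h2 : ‖(1/2:ℝ)‖ ^ 2 = 1 / 4 := by norm_num
  rw [h2]
  nlinarith

/-- Maurey's form of Gaussian concentration -/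
theorem maurey (A : Set (EE n)) (hA : MeasurableSet A) :
    (∫⁻ x, ENNReal.ofReal (Real.exp (Metric.infDist x A ^ 2 / 4)) ∂(stdGaussian (EE n))) *
      stdGaussian (EE n) A ≤ 1 := by
  have hd : Measurable (fun x : EE n => Metric.infDist x A) := Metric.continuous_infDist_pt A |>.measurable
  have hgm : Measurable (fun x : EE n => ENNReal.ofReal (gd n x)) := by
    unfold gd
    fun_prop
  have hF : Measurable (fun x : EE n => ENNReal.ofReal (Real.exp (Metric.infDist x A ^ 2 / 4))) := by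
    fun_prop
  have key := Pool.Agent.PZ871.M_pl.pl n
    (fun x => ENNReal.ofReal (gd n x) * ENNReal.ofReal (Real.exp (Metric.infDist x A ^ 2 / 4)))
    (fun x => ENNReal.ofReal (gd n x) * A.indicator 1 x) (fun x => ENNReal.ofReal (gd n x) * 1)
    (hgm.mul hF) (hgm.mul (measurable_one.indicator hA)) (hgm.mul measurable_const) ?_
  · have e1 := Pool.Agent.TH84.HC.glint n _ hF
    have e2 := Pool.Agent.TH84.HC.glint n (A.indicator 1) (measurable_one.indicator hA)
    have e3 := Pool.Agent.TH84.HC.glint n (fun _ => (1:ℝ≥0∞)) measurable_const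
    unfold gd at key
    rw [← e1, ← e2, ← e3] at key
    rw [lintegral_indicator_one hA] at key
    unfold Pool.Agent.PZ871.gm at key
    simpa using key
  · intro x y
    by_cases hy : y ∈ A
    · rw [indicator_of_mem hy, mul_one]
      simp only [Pi.one_apply, mul_one]
      rw [← ENNReal.ofReal_mul (gd_pos x).le, ← ENNReal.ofReal_mul (mul_nonneg (gd_pos x).le
        (Real.exp_nonneg _)), ← ENNReal.ofReal_pow (gd_pos _).le]
      apply ENNReal.ofReal_le_ofReal
      unfold gd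
      rw [par x y]
      have h1 : Metric.infDist x A ≤ ‖x - y‖ := by
        rw [← dist_eq_norm]
        exact Metric.infDist_le_dist_of_mem hy
      have h2 : Metric.infDist x A ^ 2 ≤ ‖x - y‖ ^ 2 := pow_le_pow_left₀ Metric.infDist_nonneg h1 2
      have hC : (0:ℝ) < (2 * Real.pi) ^ (-(n:ℝ)/2) := by positivity
      set C := (2 * Real.pi) ^ (-(n:ℝ)/2) with hCd
      have e1 : C * Real.exp (-‖x‖^2/2) * Real.exp (Metric.infDist x A ^ 2 / 4) *
          (C * Real.exp (-‖y‖^2/2)) =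
          C ^ 2 * Real.exp (-‖x‖^2/2 + Metric.infDist x A ^ 2 / 4 + -‖y‖^2/2) := by
        rw [Real.exp_add, Real.exp_add]; ring
      have e2 : (C * Real.exp (-(‖x‖ ^ 2 / 2 + ‖y‖ ^ 2 / 2 - ‖x - y‖ ^ 2 / 4)/2)) ^ 2 =
          C ^ 2 * Real.exp (-(‖x‖ ^ 2 / 2 + ‖y‖ ^ 2 / 2 - ‖x - y‖ ^ 2 / 4)) := by
        rw [mul_pow, ← Real.exp_nat_mul]
        congr 2
        push_cast
        ring
      rw [e1, e2]
      apply mul_le_mul_of_nonneg_left _ (by positivity)
      apply Real.exp_le_exp.2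
      linarith
    · rw [indicator_of_notMem hy, mul_zero, mul_zero]
      exact zero_le

/-- points far from a set of measure at least `p` -/
theorem far_le (A : Set (EE n)) (hA : MeasurableSet A) (p t : ℝ) (hp : 0 < p) (ht : 0 ≤ t)
    (hγ : p ≤ (stdGaussian (EE n) A).toReal) :
    (stdGaussian (EE n) {x | t ≤ Metric.infDist x A}).toReal ≤ Real.exp (-(t ^ 2 / 4)) / p := by
  have hd : Measurable (fun x : EE n => Metric.infDist x A) := Metric.continuous_infDist_pt A |>.measurable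
  have h1 := maurey A hA
  have h2 : ENNReal.ofReal (Real.exp (t ^ 2 / 4)) * stdGaussian (EE n) {x | t ≤ Metric.infDist x A} ≤
      ∫⁻ x, ENNReal.ofReal (Real.exp (Metric.infDist x A ^ 2 / 4)) ∂(stdGaussian (EE n)) := by
    rw [← setLIntegral_const]
    refine (setLIntegral_mono' (measurableSet_le measurable_const hd) ?_).trans
      (setLIntegral_le_lintegral _ _)
    intro x hx
    apply ENNReal.ofReal_le_ofReal
    apply Real.exp_le_exp.2
    have : t ^ 2 ≤ Metric.infDist x A ^ 2 := pow_le_pow_left₀ ht hx 2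
    linarith
  have h3 : ENNReal.ofReal (Real.exp (t ^ 2 / 4)) * stdGaussian (EE n) {x | t ≤ Metric.infDist x A} *
      stdGaussian (EE n) A ≤ 1 := (mul_le_mul_left h2 _).trans h1
  have h4 := ENNReal.toReal_mono ENNReal.one_ne_top h3
  rw [ENNReal.toReal_mul, ENNReal.toReal_mul, ENNReal.toReal_ofReal (Real.exp_nonneg _),
    ENNReal.toReal_one] at h4
  set b := (stdGaussian (EE n) {x | t ≤ Metric.infDist x A}).toReal with hb
  have hb0 : 0 ≤ b := ENNReal.toReal_nonneg
  rw [le_div_iff₀ hp, Real.exp_neg, ← one_div, le_div_iff₀ (Real.exp_pos _)]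
  calc b * p * Real.exp (t ^ 2 / 4) = Real.exp (t ^ 2 / 4) * b * p := by ring
    _ ≤ Real.exp (t ^ 2 / 4) * b * (stdGaussian (EE n) A).toReal :=
        mul_le_mul_of_nonneg_left hγ (by positivity)
    _ ≤ 1 := h4

/-- the dilation factor -/
noncomputable def dil (p : ℝ) : ℝ := 1 + 40 / p ^ 2

theorem dil_pos (p : ℝ) : 0 < dil p := by unfold dil; positivity

/-- dilating a symmetric closed convex set of measure at least `p` -/
theorem dilate {K : Set (EE n)} (hK : IsClosed K) (hc : Convex ℝ K) (hs : ∀ x ∈ K, -x ∈ K)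
    (p : ℝ) (hp : 0 < p) (hγ : p ≤ (stdGaussian (EE n) K).toReal) :
    99 / 100 ≤ (stdGaussian (EE n) (dil p • K)).toReal := by
  have hin := inradius hK hc hs p hp hγ
  have hne := nonempty_of_pos hp hγ
  have h0 := zero_mem_of_symm hc hs hne
  have hd : Measurable (fun x : EE n => Metric.infDist x K) := Metric.continuous_infDist_pt K |>.measurable
  set t : ℝ := 20 / p with ht
  have ht0 : 0 < t := by positivity
  have hp1 : p ≤ 1 := hγ.trans (by
    have := ENNReal.toReal_mono ENNReal.one_ne_top (prob_le_one (μ := stdGaussian (EE n)) (s := K))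
    simpa using this)
  have h1 := far_le K hK.measurableSet p t hp ht0.le hγ
  have h2 : Real.exp (-(t ^ 2 / 4)) / p ≤ 1 / 100 := by
    rw [div_le_iff₀ hp, Real.exp_neg]
    have h3 : t ^ 2 / 4 = 100 / p ^ 2 := by rw [ht]; field_simp; norm_num
    have h4 : t ^ 2 / 4 ≤ Real.exp (t ^ 2 / 4) := by
      have := Real.add_one_le_exp (t ^ 2 / 4)
      linarith
    have h5 : 0 < t ^ 2 / 4 := by positivity
    calc (Real.exp (t ^ 2 / 4))⁻¹ ≤ (t ^ 2 / 4)⁻¹ := inv_anti₀ h5 h4
      _ = p * p / 100 := by rw [h3, inv_div]; ring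
      _ ≤ 1 * p / 100 := by
          apply div_le_div_of_nonneg_right _ (by norm_num)
          exact mul_le_mul_of_nonneg_right hp1 hp.le
      _ = 1 / 100 * p := by ring
  -- near points lie in the dilate
  have hsub : {x : EE n | t ≤ Metric.infDist x K}ᶜ ⊆ dil p • K := by
    intro x hx
    simp only [mem_compl_iff, mem_ofPred_eq, not_le] at hx
    obtain ⟨y, hy, hxy⟩ := (Metric.infDist_lt_iff hne).1 hx
    have hxy' : ‖x - y‖ < t := by rwa [← dist_eq_norm]
    rw [mem_smul_set_iff_inv_smul_mem₀ (dil_pos p).ne']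
    -- `(p^2/40) • (x - y) ∈ K`
    have hz : (p ^ 2 / 40) • (x - y) ∈ K := by
      apply hin
      rw [mem_ball_zero_iff, norm_smul, Real.norm_of_nonneg (by positivity)]
      calc p ^ 2 / 40 * ‖x - y‖ ≤ p ^ 2 / 40 * t := mul_le_mul_of_nonneg_left hxy'.le (by positivity)
        _ = p / 2 := by rw [ht]; field_simp; norm_num
        _ < p := by linarith
    have h3 : (dil p)⁻¹ • x = (dil p)⁻¹ • y + (1 - (dil p)⁻¹) • ((p ^ 2 / 40) • (x - y)) := by
      have h4 : (1 - (dil p)⁻¹) * (p ^ 2 / 40) = (dil p)⁻¹ := by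
        unfold dil
        have : p ^ 2 + 40 ≠ 0 := by positivity
        field_simp
        ring
      rw [smul_smul, h4, smul_sub]
      abel
    rw [h3]
    have h5 : (dil p)⁻¹ ≤ 1 := by
      apply inv_le_one_of_one_le₀
      unfold dil
      have : 0 ≤ 40 / p ^ 2 := by positivity
      linarith
    exact hc hy hz (inv_nonneg.2 (dil_pos p).le) (by linarith) (by ring)
  have h3 := ENNReal.toReal_mono (measure_ne_top _ _) (measure_mono (μ := stdGaussian (EE n)) hsub)
  have h4 : (stdGaussian (EE n) {x : EE n | t ≤ Metric.infDist x K}ᶜ).toReal =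
      1 - (stdGaussian (EE n) {x : EE n | t ≤ Metric.infDist x K}).toReal :=
    probReal_compl_eq_one_sub (measurableSet_le measurable_const hd)
  linarith

/-- the balancing function for symmetric sets -/
noncomputable def fs (p : ℝ) : ℝ := 100 * dil p

theorem fs_pos (p : ℝ) : 0 < fs p := by unfold fs; linarith [dil_pos p]

/-- **Balancing with respect to a symmetric closed convex set of Gaussian measure at least `p`.** -/
theorem bal_symm {K : Set (EE n)} (hK : IsClosed K) (hc : Convex ℝ K) (hs : ∀ x ∈ K, -x ∈ K)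
    (p : ℝ) (hp : 0 < p) (hγ : p ≤ (stdGaussian (EE n) K).toReal) (m : ℕ) (u : ℕ → EE n)
    (hu : ∀ i < m, ‖u i‖ ≤ 1) :
    ∃ σ : ℕ → ℝ, (∀ i, σ i = 1 ∨ σ i = -1) ∧ ∑ i ∈ Finset.range m, σ i • u i ∈ fs p • K := by
  obtain ⟨σ, h1, h2⟩ := bal_le (hK.smul_of_ne_zero (dil_pos p).ne') (hc.smul _) (by
    rintro _ ⟨x, hx, rfl⟩
    exact ⟨-x, hs x hx, by simp⟩) (dilate hK hc hs p hp hγ) m (fun i => (1 / 100 : ℝ) • u i) (by
      intro i hi
      rw [norm_smul, Real.norm_of_nonneg (by norm_num)]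
      have := hu i hi
      linarith)
  refine ⟨σ, h1, ?_⟩
  obtain ⟨y, hy, hy2⟩ := h2
  refine ⟨y, hy, ?_⟩
  dsimp only at hy2 ⊢
  unfold fs
  rw [mul_smul, hy2, Finset.smul_sum]
  refine Finset.sum_congr rfl fun i _ => ?_
  rw [smul_comm (100:ℝ) (σ i), smul_smul (100:ℝ) (1 / 100)]
  norm_num

end Pool.Agent.V11188.VB
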