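import Pool.Agent.V11188.VB.B

/-!
# Symmetric slices of `V × V` after a rotation by 45 degrees
-/

set_option autoImplicit false

namespace Pool.Agent.V11188.VB

open MeasureTheory ProbabilityTheory Set
open scoped ENNReal InnerProductSpace Pointwise
open Pool.Agent.H460BZ (EE)

variable {n : ℕ}

/-- `1/√2` -/
noncomputable def r2 : ℝ := (Real.sqrt 2)⁻¹

theorem r2_pos : 0 < r2 := by unfold r2; positivity

theorem r2_sq : r2 ^ 2 = 1 / 2 := by
  unfold r2
  rw [inv_pow, Real.sq_sqrt (by norm_num)]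
  norm_num

/-- the symmetric slice of the rotated square of `V` over `w` -/
def sl (V : Set (EE n)) (w : EE n) : Set (EE n) := {z | r2 • (w + z) ∈ V ∧ r2 • (w - z) ∈ V}

theorem sl_closed {V : Set (EE n)} (hV : IsClosed V) (w : EE n) : IsClosed (sl V w) :=
  (hV.preimage (by fun_prop : Continuous fun z : EE n => r2 • (w + z))).inter
    (hV.preimage (by fun_prop : Continuous fun z : EE n => r2 • (w - z)))

theorem sl_symm {V : Set (EE n)} (w : EE n) : ∀ z ∈ sl V w, -z ∈ sl V w := by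
  rintro z ⟨h1, h2⟩
  refine ⟨?_, ?_⟩
  · rwa [← sub_eq_add_neg]
  · rwa [sub_neg_eq_add]

theorem sl_comb {V : Set (EE n)} (hV : Convex ℝ V) {w w' z z' : EE n} (h : z ∈ sl V w)
    (h' : z' ∈ sl V w') {a b : ℝ} (ha : 0 ≤ a) (hb : 0 ≤ b) (hab : a + b = 1) :
    a • z + b • z' ∈ sl V (a • w + b • w') := by
  refine ⟨?_, ?_⟩
  · have := hV h.1 h'.1 ha hb hab
    have e : r2 • (a • w + b • w' + (a • z + b • z')) = a • r2 • (w + z) + b • r2 • (w' + z') := by
      module
    rw [e]; exact this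
  · have := hV h.2 h'.2 ha hb hab
    have e : r2 • (a • w + b • w' - (a • z + b • z')) = a • r2 • (w - z) + b • r2 • (w' - z') := by
      module
    rw [e]; exact this

theorem sl_convex {V : Set (EE n)} (hV : Convex ℝ V) (w : EE n) : Convex ℝ (sl V w) := by
  intro z hz z' hz' a b ha hb hab
  have := sl_comb hV hz hz' ha hb hab
  rwa [← add_smul, hab, one_smul] at this

theorem sl_meas_aux {V : Set (EE n)} (hV : MeasurableSet V) :
    MeasurableSet {p : EE n × EE n | p.2 ∈ sl V p.1} := by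
  have h1 : Measurable (fun p : EE n × EE n => r2 • (p.1 + p.2)) := by fun_prop
  have h2 : Measurable (fun p : EE n × EE n => r2 • (p.1 - p.2)) := by fun_prop
  exact (h1 hV).inter (h2 hV)

theorem sl_meas {V : Set (EE n)} (hV : MeasurableSet V) :
    Measurable (fun w => stdGaussian (EE n) (sl V w)) :=
  measurable_measure_prodMk_left (sl_meas_aux hV)

theorem rot (n : ℕ) : MeasurePreserving (fun p : EE n × EE n => (r2 • (p.1 + p.2), r2 • (p.1 - p.2)))
    ((stdGaussian (EE n)).prod (stdGaussian (EE n))) ((stdGaussian (EE n)).prod (stdGaussian (EE n))) := by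
  have h := Pool.Agent.PZ871.M_grot.grot n r2 r2 (by rw [r2_sq]; norm_num)
  unfold Pool.Agent.PZ871.gm at h
  have e : (fun p : EE n × EE n => (r2 • (p.1 + p.2), r2 • (p.1 - p.2))) =
      (fun p : EE n × EE n => (r2 • p.1 + r2 • p.2, r2 • p.1 - r2 • p.2)) := by
    funext p
    rw [smul_add, smul_sub]
  rw [e]
  exact h

/-- `γ(V)^2 = ∫ γ(S_w) dγ(w)` -/
theorem slice_eq {V : Set (EE n)} (hV : MeasurableSet V) :
    ∫⁻ w, stdGaussian (EE n) (sl V w) ∂(stdGaussian (EE n)) = stdGaussian (EE n) V ^ 2 := by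
  have h1 := (rot n).measure_preimage (hV.prod hV).nullMeasurableSet
  rw [Measure.prod_prod, ← sq] at h1
  rw [← h1]
  have h2 : (fun p : EE n × EE n => (r2 • (p.1 + p.2), r2 • (p.1 - p.2))) ⁻¹' (V ×ˢ V) =
      {p : EE n × EE n | p.2 ∈ sl V p.1} := rfl
  rw [h2, Measure.prod_apply (sl_meas_aux hV)]
  rfl

/-- some slice has large measure -/
theorem exists_slice {V : Set (EE n)} (hV : MeasurableSet V) :
    ∃ w, stdGaussian (EE n) V ^ 2 ≤ stdGaussian (EE n) (sl V w) := by
  by_contra hcon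
  push Not at hcon
  have h1 := slice_eq hV
  have h2 : ∫⁻ w, stdGaussian (EE n) (sl V w) ∂(stdGaussian (EE n)) <
      ∫⁻ _, stdGaussian (EE n) V ^ 2 ∂(stdGaussian (EE n)) := by
    apply lintegral_strict_mono (NeZero.ne _) aemeasurable_const
    · rw [h1]; finiteness
    · exact Filter.Eventually.of_forall hcon
  rw [lintegral_const, measure_univ, mul_one, h1] at h2
  exact lt_irrefl _ h2

/-- Translates: a translate of `V` is a good body for balancing. -/
theorem translate_bal {V : Set (EE n)} (hV : IsClosed V) (hc : Convex ℝ V) (p : ℝ) (hp : 0 < p)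
    (hγ : p ≤ (stdGaussian (EE n) V).toReal) :
    ∃ x : EE n, (0 : EE n) ∈ interior ((fun y => y + x) '' V) ∧
      ∀ (m : ℕ) (u : ℕ → EE n), (∀ i < m, ‖u i‖ ≤ 1) →
        ∃ σ : ℕ → ℝ, (∀ i, σ i = 1 ∨ σ i = -1) ∧
          ∑ i ∈ Finset.range m, σ i • u i ∈ (Real.sqrt 2 * fs (p ^ 2)) • ((fun y => y + x) '' V) := by
  obtain ⟨w, hw⟩ := exists_slice hV.measurableSet
  have h1 : p ^ 2 ≤ (stdGaussian (EE n) (sl V w)).toReal := by
    have h2 := ENNReal.toReal_mono (measure_ne_top _ _) hw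
    rw [ENNReal.toReal_pow] at h2
    exact (pow_le_pow_left₀ hp.le hγ 2).trans h2
  have hsub : ∀ z ∈ sl V w, r2 • z ∈ (fun y => y + (-(r2 • w))) '' V := by
    intro z hz
    refine ⟨r2 • (w + z), hz.1, ?_⟩
    dsimp only
    rw [smul_add]
    abel
  refine ⟨-(r2 • w), ?_, ?_⟩
  · have hin := inradius (sl_closed hV w) (sl_convex hc w) (sl_symm w) (p ^ 2) (by positivity) h1
    rw [mem_interior_iff_mem_nhds]
    refine Filter.mem_of_superset (Metric.ball_mem_nhds (0 : EE n)
      (by have := r2_pos; positivity : (0:ℝ) < r2 * p ^ 2)) ?_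
    intro y hy
    have h2 : r2⁻¹ • y ∈ sl V w := by
      apply hin
      rw [mem_ball_zero_iff] at hy ⊢
      rw [norm_smul, Real.norm_of_nonneg (inv_nonneg.2 r2_pos.le), inv_mul_lt_iff₀ r2_pos]
      exact hy
    have h3 := hsub _ h2
    rwa [smul_smul, mul_inv_cancel₀ r2_pos.ne', one_smul] at h3
  · intro m u hu
    obtain ⟨σ, h2, h3⟩ := bal_symm (sl_closed hV w) (sl_convex hc w) (sl_symm w) (p ^ 2)
      (by positivity) h1 m u hu
    refine ⟨σ, h2, ?_⟩
    obtain ⟨z, hz, hz2⟩ := h3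
    refine ⟨r2 • z, hsub z hz, ?_⟩
    dsimp only at hz2 ⊢
    rw [← hz2, smul_smul]
    congr 1
    unfold r2
    have : Real.sqrt 2 ≠ 0 := by positivity
    field_simp

end Pool.Agent.V11188.VB
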