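import Pool.Agent.V11188.VB.C

/-!
# Bodies with Gaussian barycentre at the origin
-/

set_option autoImplicit false

namespace Pool.Agent.V11188.VB

open MeasureTheory ProbabilityTheory Set
open scoped ENNReal InnerProductSpace Pointwise
open Pool.Agent.H460BZ (EE)

variable {n : ℕ}

theorem gauss_pos {A : Set (EE n)} (hA : (interior A).Nonempty) : 0 < stdGaussian (EE n) A := by
  have h1 : 0 < volume (interior A) := isOpen_interior.measure_pos volume hA
  refine lt_of_lt_of_le ?_ (measure_mono (interior_subset (s := A)))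
  rw [pos_iff_ne_zero]
  intro h2
  have h3 := Pool.Agent.TH84.HC.glint n ((interior A).indicator 1)
    (measurable_one.indicator isOpen_interior.measurableSet)
  rw [lintegral_indicator_one isOpen_interior.measurableSet] at h3
  unfold Pool.Agent.PZ871.gm at h3
  rw [h2] at h3
  have h4 := (lintegral_eq_zero_iff (by
    have : Measurable ((interior A).indicator (1 : EE n → ℝ≥0∞)) :=
      measurable_one.indicator isOpen_interior.measurableSet
    fun_prop)).1 h3.symm
  have h5 : volume (interior A) = 0 := by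
    rw [← nonpos_iff_eq_zero, ← MeasureTheory.ae_iff.1 h4]
    apply measure_mono
    intro x hx
    simp only [mem_ofPred_eq, Pi.zero_apply, mul_eq_zero, not_or, ENNReal.ofReal_eq_zero, not_le]
    refine ⟨by positivity, ?_⟩
    rw [indicator_of_mem hx]
    simp
  exact h1.ne' h5

theorem gauss_toReal_pos {A : Set (EE n)} (hA : (interior A).Nonempty) :
    0 < (stdGaussian (EE n) A).toReal :=
  ENNReal.toReal_pos (gauss_pos hA).ne' (measure_ne_top _ _)

/-- the real valued slice function -/
noncomputable def G (V : Set (EE n)) (w : EE n) : ℝ := (stdGaussian (EE n) (sl V w)).toReal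

theorem G_nonneg (V : Set (EE n)) (w : EE n) : 0 ≤ G V w := ENNReal.toReal_nonneg

theorem G_le_one (V : Set (EE n)) (w : EE n) : G V w ≤ 1 := by
  have := ENNReal.toReal_mono ENNReal.one_ne_top (prob_le_one (μ := stdGaussian (EE n)) (s := sl V w))
  rw [ENNReal.toReal_one] at this
  exact this

theorem G_logconc {V : Set (EE n)} (hV : IsClosed V) (hc : Convex ℝ V) (w w' : EE n) {a b : ℝ}
    (ha : 0 < a) (hb : 0 < b) (hab : a + b = 1) :
    G V w ^ a * G V w' ^ b ≤ G V (a • w + b • w') := by
  have hb1 : b < 1 := by linarith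
  have ha1 : 1 - b = a := by linarith
  have h := Pool.Agent.H460BZ.gauss_bm n b hb hb1 (sl V w) (sl V w') (sl V (a • w + b • w'))
    (sl_closed hV w).measurableSet (sl_closed hV w').measurableSet (sl_closed hV _).measurableSet
    (by
      intro x hx y hy
      rw [ha1]
      exact sl_comb hc hx hy ha.le hb.le hab)
  rw [ha1] at h
  have h2 := ENNReal.toReal_mono (measure_ne_top _ _) h
  rw [ENNReal.toReal_mul, ← ENNReal.toReal_rpow, ← ENNReal.toReal_rpow] at h2
  exact h2

theorem G_lower {V : Set (EE n)} (ρ : ℝ) (hV : Metric.ball 0 ρ ⊆ V) (w : EE n)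
    (hw : ‖w‖ < ρ / 2) : (stdGaussian (EE n) (Metric.ball 0 (ρ / 2))).toReal ≤ G V w := by
  apply ENNReal.toReal_mono (measure_ne_top _ _)
  apply measure_mono
  intro z hz
  rw [mem_ball_zero_iff] at hz
  have hr1 : r2 ≤ 1 := by
    have := r2_sq
    nlinarith [r2_pos]
  refine ⟨hV ?_, hV ?_⟩
  · rw [mem_ball_zero_iff, norm_smul, Real.norm_of_nonneg r2_pos.le]
    have := norm_add_le w z
    calc r2 * ‖w + z‖ ≤ 1 * ‖w + z‖ := mul_le_mul_of_nonneg_right hr1 (norm_nonneg _)
      _ < ρ := by linarith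
  · rw [mem_ball_zero_iff, norm_smul, Real.norm_of_nonneg r2_pos.le]
    have := norm_sub_le w z
    calc r2 * ‖w - z‖ ≤ 1 * ‖w - z‖ := mul_le_mul_of_nonneg_right hr1 (norm_nonneg _)
      _ < ρ := by linarith

/-- a supporting exponential of a log-concave function at the origin -/
theorem support (g : EE n → ℝ) (hg0 : ∀ w, 0 ≤ g w)
    (hlc : ∀ (w w' : EE n) (a b : ℝ), 0 < a → 0 < b → a + b = 1 →
      g w ^ a * g w' ^ b ≤ g (a • w + b • w'))
    (ρ δ : ℝ) (hρ : 0 < ρ) (hδ : 0 < δ) (hlow : ∀ w, ‖w‖ < ρ → δ ≤ g w) :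
    ∃ ℓ : EE n →L[ℝ] ℝ, ∀ w, g w ≤ g 0 * Real.exp (ℓ w) := by
  have h00 : 0 < g 0 := lt_of_lt_of_le hδ (hlow 0 (by simpa using hρ))
  -- the strict hypograph of the logarithm
  set A : Set (EE n × ℝ) := {p | Real.exp p.2 < g p.1} with hA
  have hAc : Convex ℝ A := by
    rw [convex_iff_forall_pos]
    rintro ⟨w, s⟩ hs ⟨w', s'⟩ hs' a b ha hb hab
    simp only [hA, mem_ofPred_eq] at hs hs' ⊢
    refine lt_of_lt_of_le ?_ (hlc w w' a b ha hb hab)
    have e : Real.exp (a • ((w, s) : EE n × ℝ) + b • ((w', s') : EE n × ℝ)).2 =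
        Real.exp s ^ a * Real.exp s' ^ b := by
      rw [← Real.exp_mul, ← Real.exp_mul, ← Real.exp_add]
      congr 1
      simp only [Prod.snd_add, Prod.smul_snd, smul_eq_mul]
      ring
    rw [e]
    exact mul_lt_mul'' (Real.rpow_lt_rpow (Real.exp_nonneg _) hs ha)
      (Real.rpow_lt_rpow (Real.exp_nonneg _) hs' hb) (by positivity) (by positivity)
  have hbox : Metric.ball (0 : EE n) ρ ×ˢ Iio (Real.log δ) ⊆ A := by
    rintro ⟨w, s⟩ ⟨hw, hs⟩
    simp only [hA, mem_ofPred_eq]
    rw [mem_ball_zero_iff] at hw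
    calc Real.exp s < Real.exp (Real.log δ) := Real.exp_lt_exp.2 hs
      _ = δ := Real.exp_log hδ
      _ ≤ g w := hlow w hw
  have hboxo : IsOpen (Metric.ball (0 : EE n) ρ ×ˢ Iio (Real.log δ)) :=
    Metric.isOpen_ball.prod isOpen_Iio
  have hbint : Metric.ball (0 : EE n) ρ ×ˢ Iio (Real.log δ) ⊆ interior A :=
    interior_maximal hbox hboxo
  have hx0 : ((0 : EE n), Real.log (g 0)) ∉ interior A := by
    intro h
    have h2 := interior_subset h
    simp only [hA, mem_ofPred_eq, Real.exp_log h00] at h2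
    exact lt_irrefl _ h2
  obtain ⟨f, hf⟩ := geometric_hahn_banach_open_point hAc.interior isOpen_interior hx0
  have hne : (interior A).Nonempty := by
    refine ⟨((0 : EE n), Real.log δ - 1), hbint ⟨by simpa using hρ, ?_⟩⟩
    simp
  have hfA : ∀ a ∈ A, f a ≤ f ((0 : EE n), Real.log (g 0)) := by
    intro a ha
    have h1 : a ∈ closure (interior A) := by
      rw [hAc.closure_interior_eq_closure_of_nonempty_interior hne]
      exact subset_closure ha
    exact closure_minimal (fun x hx => (hf x hx).le)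
      (isClosed_le f.continuous continuous_const) h1
  set c : ℝ := f ((0 : EE n), (1:ℝ)) with hc
  set φ : EE n →L[ℝ] ℝ := f.comp (ContinuousLinearMap.inl ℝ (EE n) ℝ) with hφ
  have hsplit : ∀ (w : EE n) (s : ℝ), f (w, s) = φ w + c * s := by
    intro w s
    have e1 : ((w, s) : EE n × ℝ) = (w, 0) + s • ((0 : EE n), (1:ℝ)) := by
      ext <;> simp
    rw [e1, map_add, map_smul, hc, smul_eq_mul, mul_comm s]
    rfl
  have hφ0 : φ 0 = 0 := map_zero _
  have hc0 : 0 < c := by
    have h1 : ((0 : EE n), min (Real.log δ) (Real.log (g 0)) - 1) ∈ interior A := by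
      apply hbint
      refine ⟨by simpa using hρ, ?_⟩
      have := min_le_left (Real.log δ) (Real.log (g 0))
      show min (Real.log δ) (Real.log (g 0)) - 1 < Real.log δ
      linarith
    have h2 := hf _ h1
    rw [hsplit, hsplit, hφ0] at h2
    have h3 := min_le_right (Real.log δ) (Real.log (g 0))
    have h4 : c * (Real.log (g 0) - (min (Real.log δ) (Real.log (g 0)) - 1)) > 0 := by linarith
    exact pos_of_mul_pos_left h4 (by linarith)
  refine ⟨-((c⁻¹ : ℝ) • φ), fun w => ?_⟩
  rcases (hg0 w).eq_or_lt with h | hpos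
  · rw [← h]; positivity
  · -- every `s < log g w` satisfies the bound
    have h1 : ∀ s, s < Real.log (g w) → s ≤ Real.log (g 0) - c⁻¹ * φ w := by
      intro s hs
      have h2 : ((w, s) : EE n × ℝ) ∈ A := by
        simp only [hA, mem_ofPred_eq]
        calc Real.exp s < Real.exp (Real.log (g w)) := Real.exp_lt_exp.2 hs
          _ = g w := Real.exp_log hpos
      have h3 := hfA _ h2
      rw [hsplit, hsplit, hφ0] at h3
      have h4 : c * s ≤ c * (Real.log (g 0) - c⁻¹ * φ w) := by
        rw [mul_sub, ← mul_assoc, mul_inv_cancel₀ hc0.ne', one_mul]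
        linarith
      exact le_of_mul_le_mul_left h4 hc0
    have h2 : Real.log (g w) ≤ Real.log (g 0) - c⁻¹ * φ w := by
      by_contra hcon
      push Not at hcon
      obtain ⟨t, ht1, ht2⟩ := exists_between hcon
      linarith [h1 t ht2]
    calc g w = Real.exp (Real.log (g w)) := (Real.exp_log hpos).symm
      _ ≤ Real.exp (Real.log (g 0) - c⁻¹ * φ w) := Real.exp_le_exp.2 h2
      _ = g 0 * Real.exp ((-((c⁻¹ : ℝ) • φ)) w) := by
          rw [sub_eq_add_neg, Real.exp_add, Real.exp_log h00]
          simp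

/-- the first moment of the slice function -/
theorem moment {V : Set (EE n)} (hV : IsCompact V) (ℓ : EE n →L[ℝ] ℝ)
    (hbar : ∫ x in V, x ∂(stdGaussian (EE n)) = 0) :
    ∫ w, G V w * ℓ w ∂(stdGaussian (EE n)) = 0 := by
  have hVm := hV.isClosed.measurableSet
  obtain ⟨R₀, hR₀⟩ := hV.isBounded.exists_norm_le
  obtain ⟨R, hR0, hR⟩ : ∃ R : ℝ, 0 ≤ R ∧ ∀ x ∈ V, ‖x‖ ≤ R :=
    ⟨max R₀ 0, le_max_right _ _, fun x hx => (hR₀ x hx).trans (le_max_left _ _)⟩
  have hℓ : ∀ x ∈ V, ‖ℓ x‖ ≤ ‖ℓ‖ * R := fun x hx =>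
    (ℓ.le_opNorm _).trans (mul_le_mul_of_nonneg_left (hR _ hx) (norm_nonneg _))
  set γ := stdGaussian (EE n) with hγ
  -- the linear functional has zero integral over `V`
  have hVi : IntegrableOn (fun x => x) V γ := by
    refine Integrable.of_bound (by fun_prop) R ?_
    exact (ae_restrict_iff' hVm).2 (Filter.Eventually.of_forall hR)
  have hℓi : IntegrableOn (fun x => ℓ x) V γ := ℓ.integrable_comp hVi
  have hℓ0 : ∫ x in V, ℓ x ∂γ = 0 := by
    rw [ContinuousLinearMap.integral_comp_comm ℓ hVi, hbar, map_zero]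
  set F : EE n × EE n → ℝ := (V ×ˢ V).indicator (fun p => r2 * (ℓ p.1 + ℓ p.2)) with hF
  have hFm : Measurable F := by
    apply Measurable.indicator _ (hVm.prod hVm)
    fun_prop
  have hFi : Integrable F (γ.prod γ) := by
    refine Integrable.of_bound hFm.aestronglyMeasurable (|r2| * (‖ℓ‖ * R + ‖ℓ‖ * R))
      (Filter.Eventually.of_forall fun p => ?_)
    by_cases hp : p ∈ V ×ˢ V
    · rw [hF, indicator_of_mem hp, norm_mul]
      apply mul_le_mul le_rfl _ (norm_nonneg _) (abs_nonneg _)
      exact (norm_add_le _ _).trans (add_le_add (hℓ _ hp.1) (hℓ _ hp.2))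
    · rw [hF, indicator_of_notMem hp, norm_zero]
      positivity
  -- first evaluation
  have e1 : ∫ p, F p ∂(γ.prod γ) = 0 := by
    rw [integral_prod _ hFi]
    have h1 : ∀ x, ∫ y, F (x, y) ∂γ = V.indicator (fun x => r2 * (γ V).toReal * ℓ x) x := by
      intro x
      by_cases hx : x ∈ V
      · rw [indicator_of_mem hx]
        have h2 : ∀ y, F (x, y) = V.indicator (fun y => r2 * ℓ x + r2 * ℓ y) y := by
          intro y
          by_cases hy : y ∈ V
          · rw [hF, indicator_of_mem (show (x, y) ∈ V ×ˢ V from ⟨hx, hy⟩), indicator_of_mem hy]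
            ring
          · rw [hF, indicator_of_notMem (show (x, y) ∉ V ×ˢ V from fun h => hy h.2),
              indicator_of_notMem hy]
        simp_rw [h2]
        rw [integral_indicator hVm, integral_add (integrable_const _) (hℓi.const_mul r2),
          integral_const_mul r2 (fun y => ℓ y), hℓ0, integral_const]
        simp only [measureReal_restrict_apply_univ, smul_eq_mul, mul_zero, add_zero]
        show (γ V).toReal * (r2 * ℓ x) = _
        ring
      · rw [indicator_of_notMem hx]
        have h2 : ∀ y, F (x, y) = 0 := by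
          intro y
          rw [hF, indicator_of_notMem (show (x, y) ∉ V ×ˢ V from fun h => hx h.1)]
        simp_rw [h2]
        simp
    simp_rw [h1]
    rw [integral_indicator hVm, integral_const_mul, hℓ0, mul_zero]
  -- second evaluation
  have e2 : ∫ p, F p ∂(γ.prod γ) = ∫ w, G V w * ℓ w ∂γ := by
    have hrot := rot n
    rw [← hγ] at hrot
    rw [← hrot.map_eq, integral_map hrot.measurable.aemeasurable (by
      rw [hrot.map_eq]; exact hFm.aestronglyMeasurable)]
    have h1 : Integrable (fun p : EE n × EE n => F (r2 • (p.1 + p.2), r2 • (p.1 - p.2)))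
        (γ.prod γ) := hrot.integrable_comp_of_integrable hFi
    rw [integral_prod _ h1]
    refine integral_congr_ae (Filter.Eventually.of_forall fun w => ?_)
    dsimp only
    have h2 : ∀ z, F (r2 • (w + z), r2 • (w - z)) = (sl V w).indicator (fun _ => ℓ w) z := by
      intro z
      by_cases hz : z ∈ sl V w
      · rw [indicator_of_mem hz, hF, indicator_of_mem (show _ ∈ V ×ˢ V from ⟨hz.1, hz.2⟩)]
        simp only [map_smul, map_add, map_sub, smul_eq_mul]
        have := r2_sq
        calc r2 * (r2 * (ℓ w + ℓ z) + r2 * (ℓ w - ℓ z)) = 2 * r2 ^ 2 * ℓ w := by ring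
          _ = ℓ w := by rw [this]; ring
      · rw [indicator_of_notMem hz, hF, indicator_of_notMem]
        exact fun h => hz ⟨h.1, h.2⟩
    simp_rw [h2]
    rw [integral_indicator (sl_closed hV.isClosed w).measurableSet, integral_const]
    simp only [measureReal_restrict_apply_univ, smul_eq_mul]
    rfl
  rw [← e2, e1]

/-- the integral of the slice function -/
theorem mass {V : Set (EE n)} (hV : MeasurableSet V) :
    ∫ w, G V w ∂(stdGaussian (EE n)) = (stdGaussian (EE n) V).toReal ^ 2 := by
  unfold G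
  rw [integral_toReal (sl_meas hV).aemeasurable
    (Filter.Eventually.of_forall fun w => measure_lt_top _ _), slice_eq hV, ENNReal.toReal_pow]

/-- **the central slice** of a convex body with Gaussian barycentre at the origin -/
theorem central {V : Set (EE n)} (hV : IsCompact V) (hc : Convex ℝ V)
    (h0 : (0 : EE n) ∈ interior V) (hbar : ∫ x in V, x ∂(stdGaussian (EE n)) = 0) :
    (stdGaussian (EE n) V).toReal ^ 2 ≤ G V 0 := by
  obtain ⟨ρ, hρ, hball⟩ := Metric.isOpen_iff.1 isOpen_interior 0 h0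
  have hball' : Metric.ball 0 ρ ⊆ V := hball.trans interior_subset
  have hδ : 0 < (stdGaussian (EE n) (Metric.ball 0 (ρ / 2))).toReal := by
    apply gauss_toReal_pos
    rw [Metric.isOpen_ball.interior_eq]
    exact ⟨0, by simpa using hρ⟩
  obtain ⟨ℓ, hℓ⟩ := support (G V) (G_nonneg V)
    (fun w w' a b ha hb hab => G_logconc hV.isClosed hc w w' ha hb hab) (ρ / 2) _ (by positivity) hδ
    (fun w hw => G_lower ρ hball' w hw)
  set γ := stdGaussian (EE n) with hγ
  have hGm : Measurable (G V) := (sl_meas hV.isClosed.measurableSet).ennreal_toReal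
  have hGi : Integrable (G V) γ := by
    refine Integrable.of_bound hGm.aestronglyMeasurable 1 (Filter.Eventually.of_forall fun w => ?_)
    rw [Real.norm_of_nonneg (G_nonneg V w)]
    exact G_le_one V w
  have hm1 := mass (V := V) hV.isClosed.measurableSet
  have hm2 := moment hV ℓ hbar
  rw [← hγ] at hm1 hm2
  have hℓi : Integrable (fun w => ℓ w) γ := by
    have : Integrable (fun x : EE n => x) γ := by
      rw [hγ]
      exact IsGaussian.integrable_id
    exact ℓ.integrable_comp this
  have hGℓi : Integrable (fun w => G V w * ℓ w) γ := by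
    refine hℓi.bdd_mul (c := 1) hGm.aestronglyMeasurable (Filter.Eventually.of_forall fun w => ?_)
    rw [Real.norm_of_nonneg (G_nonneg V w)]
    exact G_le_one V w
  have h1 : ∀ w, G V w - G V w * ℓ w ≤ G V 0 := by
    intro w
    have h2 : 1 - ℓ w ≤ Real.exp (-ℓ w) := by
      have := Real.add_one_le_exp (-ℓ w)
      linarith
    calc G V w - G V w * ℓ w = G V w * (1 - ℓ w) := by ring
      _ ≤ G V w * Real.exp (-ℓ w) := mul_le_mul_of_nonneg_left h2 (G_nonneg V w)
      _ ≤ (G V 0 * Real.exp (ℓ w)) * Real.exp (-ℓ w) :=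
          mul_le_mul_of_nonneg_right (hℓ w) (Real.exp_nonneg _)
      _ = G V 0 := by rw [mul_assoc, ← Real.exp_add, add_neg_cancel, Real.exp_zero, mul_one]
  have h2 : ∫ w, (G V w - G V w * ℓ w) ∂γ ≤ ∫ _, G V 0 ∂γ :=
    integral_mono (hGi.sub hGℓi) (integrable_const _) h1
  rw [integral_sub hGi hGℓi, hm1, hm2, sub_zero, integral_const] at h2
  simpa using h2

/-- Balancing for a convex body with Gaussian barycentre at the origin. -/
theorem centred_bal {V : Set (EE n)} (hV : IsCompact V) (hc : Convex ℝ V)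
    (h0 : (0 : EE n) ∈ interior V) (hbar : ∫ x in V, x ∂(stdGaussian (EE n)) = 0)
    (m : ℕ) (u : ℕ → EE n) (hu : ∀ i < m, ‖u i‖ ≤ 1) :
    ∃ σ : ℕ → ℝ, (∀ i, σ i = 1 ∨ σ i = -1) ∧ ∑ i ∈ Finset.range m, σ i • u i ∈
      (Real.sqrt 2 * fs ((stdGaussian (EE n) V).toReal ^ 2)) • V := by
  have hp : 0 < (stdGaussian (EE n) V).toReal := gauss_toReal_pos ⟨0, h0⟩
  have h1 := central hV hc h0 hbar
  obtain ⟨σ, h2, h3⟩ := bal_symm (sl_closed hV.isClosed 0) (sl_convex hc 0) (sl_symm 0)
    ((stdGaussian (EE n) V).toReal ^ 2) (by positivity) h1 m u hu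
  refine ⟨σ, h2, ?_⟩
  obtain ⟨z, hz, hz2⟩ := h3
  refine ⟨r2 • z, ?_, ?_⟩
  · have := hz.1
    rwa [zero_add] at this
  · dsimp only at hz2 ⊢
    rw [← hz2, smul_smul]
    congr 1
    unfold r2
    have : Real.sqrt 2 ≠ 0 := by positivity
    field_simp

end Pool.Agent.V11188.VB
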