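import Pool.Agent.V11188.VB.D

/-!
# The balancing constant of a convex body with respect to the Euclidean unit ball
-/

set_option autoImplicit false

namespace Pool.Agent.V11188.VB

open MeasureTheory ProbabilityTheory Set Filter Topology
open scoped ENNReal InnerProductSpace Pointwise
open Pool.Agent.H460BZ (EE)

/-- Every `n`-tuple of vectors of the closed Euclidean unit ball of `ℝ^n` has a signed sum in
`C W`. -/
def Balances (n : ℕ) (W : Set (EuclideanSpace ℝ (Fin n))) (C : ℝ) : Prop :=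
  ∀ u : Fin n → EuclideanSpace ℝ (Fin n), (∀ i, ‖u i‖ ≤ 1) →
    ∃ ε : Fin n → ℝ, (∀ i, ε i = 1 ∨ ε i = -1) ∧ ∑ i, ε i • u i ∈ C • W

/-- The balancing constant `β(B_2^n, W)`: the infimum of the `C > 0` for which every `n`-tuple of
vectors of the closed unit ball has a signed sum in `C W`. -/
noncomputable def beta (n : ℕ) (W : Set (EuclideanSpace ℝ (Fin n))) : ℝ :=
  sInf {C : ℝ | 0 < C ∧ Balances n W C}

theorem balances_of_seq {n : ℕ} {W : Set (EE n)} {C : ℝ}
    (h : ∀ (m : ℕ) (u : ℕ → EE n), (∀ i < m, ‖u i‖ ≤ 1) →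
      ∃ σ : ℕ → ℝ, (∀ i, σ i = 1 ∨ σ i = -1) ∧ ∑ i ∈ Finset.range m, σ i • u i ∈ C • W) :
    Balances n W C := by
  intro u hu
  obtain ⟨σ, h1, h2⟩ := h n (fun i => if hi : i < n then u ⟨i, hi⟩ else 0) (by
    intro i hi
    simp only [hi, dite_true]
    exact hu _)
  refine ⟨fun i => σ i, fun i => h1 i, ?_⟩
  rw [Finset.sum_range] at h2
  simpa using h2

theorem beta_nonneg {n : ℕ} (W : Set (EE n)) : 0 ≤ beta n W :=
  Real.sInf_nonneg fun _ h => h.1.le

theorem beta_le {n : ℕ} {W : Set (EE n)} {C : ℝ} (hC : 0 < C) (h : Balances n W C) :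
    beta n W ≤ C := csInf_le ⟨0, fun _ h => h.1.le⟩ ⟨hC, h⟩

/-- The infimum is attained for compact sets with the origin in the interior. -/
theorem beta_isLeast {n : ℕ} (hn : 1 ≤ n) {W : Set (EE n)} (hW : IsCompact W)
    (h0 : (0 : EE n) ∈ interior W) : IsLeast {C : ℝ | 0 < C ∧ Balances n W C} (beta n W) := by
  set S : Set ℝ := {C : ℝ | 0 < C ∧ Balances n W C} with hS
  have h00 : (0 : EE n) ∈ W := interior_subset h0
  obtain ⟨ρ, hρ, hball⟩ := Metric.isOpen_iff.1 isOpen_interior 0 h0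
  have hball' : Metric.ball 0 ρ ⊆ W := hball.trans interior_subset
  -- nonempty
  have hne : S.Nonempty := by
    refine ⟨(n + 1) / ρ, by positivity, ?_⟩
    intro u hu
    refine ⟨fun _ => 1, fun _ => Or.inl rfl, ?_⟩
    have hC : (0:ℝ) < (n + 1) / ρ := by positivity
    rw [mem_smul_set_iff_inv_smul_mem₀ hC.ne']
    apply hball'
    rw [mem_ball_zero_iff, norm_smul, Real.norm_of_nonneg (inv_nonneg.2 hC.le), inv_mul_lt_iff₀ hC]
    have h1 : ‖∑ i, (1:ℝ) • u i‖ ≤ n := by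
      refine (norm_sum_le _ _).trans ?_
      calc ∑ i, ‖(1:ℝ) • u i‖ ≤ ∑ _i : Fin n, (1:ℝ) :=
            Finset.sum_le_sum fun i _ => by rw [one_smul]; exact hu i
        _ = n := by simp
    rw [div_mul_cancel₀ _ hρ.ne']
    linarith
  -- lower bound
  obtain ⟨R₀, hR₀⟩ := hW.isBounded.exists_norm_le
  obtain ⟨R, hR0, hR⟩ : ∃ R : ℝ, 0 < R ∧ ∀ x ∈ W, ‖x‖ ≤ R :=
    ⟨max R₀ 1, lt_of_lt_of_le one_pos (le_max_right _ _), fun x hx => (hR₀ x hx).trans (le_max_left _ _)⟩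
  have hlow : ∀ C ∈ S, R⁻¹ ≤ C := by
    rintro C ⟨hC, hB⟩
    obtain ⟨ε, h1, h2⟩ := hB (fun i => if i = ⟨0, hn⟩ then EuclideanSpace.single ⟨0, hn⟩ (1:ℝ) else 0) (by
      intro i
      split_ifs
      · simp
      · simp)
    have h3 : ∑ i, ε i • (if i = (⟨0, hn⟩ : Fin n) then EuclideanSpace.single (⟨0, hn⟩ : Fin n) (1:ℝ)
        else 0) = ε ⟨0, hn⟩ • EuclideanSpace.single (⟨0, hn⟩ : Fin n) (1:ℝ) := by
      rw [Finset.sum_eq_single (⟨0, hn⟩ : Fin n)]
      · simp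
      · intro b _ hb
        simp [hb]
      · simp
    rw [h3] at h2
    obtain ⟨w, hw, hw2⟩ := h2
    have h4 : ‖C • w‖ = 1 := by
      dsimp only at hw2
      rw [hw2, norm_smul]
      rcases h1 ⟨0, hn⟩ with h | h <;> rw [h] <;> simp
    rw [norm_smul, Real.norm_of_nonneg hC.le] at h4
    have h5 := mul_le_mul_of_nonneg_left (hR w hw) hC.le
    rw [inv_le_iff_one_le_mul₀ hR0]
    linarith
  have hpos : 0 < beta n W := lt_of_lt_of_le (inv_pos.2 hR0) (le_csInf hne hlow)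
  have hbdd : BddBelow S := ⟨0, fun _ h => h.1.le⟩
  refine ⟨⟨hpos, ?_⟩, fun C hC => csInf_le hbdd hC⟩
  intro u hu
  by_contra hcon
  push Not at hcon
  set b := beta n W with hb
  -- the finite set of signs
  have hfin : (Set.pi univ (fun _ : Fin n => ({1, -1} : Set ℝ))).Finite :=
    Set.Finite.pi fun _ => Set.toFinite _
  have hev : ∀ᶠ C in 𝓝[≥] b, ∀ ε ∈ Set.pi univ (fun _ : Fin n => ({1, -1} : Set ℝ)),
      C⁻¹ • ∑ i, ε i • u i ∉ W := by
    rw [eventually_all_finite hfin]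
    intro ε hε
    have h1 : b⁻¹ • ∑ i, ε i • u i ∉ W := by
      have := hcon ε (fun i => by simpa using hε i (mem_univ i))
      rwa [mem_smul_set_iff_inv_smul_mem₀ hpos.ne'] at this
    have h2 : Tendsto (fun C : ℝ => C⁻¹ • ∑ i, ε i • u i) (𝓝[≥] b) (𝓝 (b⁻¹ • ∑ i, ε i • u i)) := by
      apply Tendsto.smul_const
      exact (tendsto_inv₀ hpos.ne').mono_left nhdsWithin_le_nhds
    exact h2.eventually (hW.isClosed.isOpen_compl.mem_nhds h1)
  rw [eventually_nhdsWithin_iff, Metric.eventually_nhds_iff] at hev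
  obtain ⟨δ, hδ, hev⟩ := hev
  obtain ⟨C, hCS, hC1⟩ := Real.lt_sInf_add_pos hne hδ
  have hbC : b ≤ C := csInf_le hbdd hCS
  have h1 := hev (y := C) (by
    rw [Real.dist_eq, abs_of_nonneg (by linarith)]
    have : C < b + δ := hC1
    linarith) hbC
  obtain ⟨ε, h2, h3⟩ := hCS.2 u hu
  rw [mem_smul_set_iff_inv_smul_mem₀ hCS.1.ne'] at h3
  exact h1 ε (fun i _ => by simpa using h2 i) h3

/-- `γ(V + y)` is positive -/
theorem gauss_translate_pos {n : ℕ} {V : Set (EE n)} (hV : (interior V).Nonempty) (y : EE n) :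
    0 < (stdGaussian (EE n) ((fun v => v + y) '' V)).toReal := by
  apply gauss_toReal_pos
  obtain ⟨v, hv⟩ := hV
  refine ⟨v + y, ?_⟩
  rw [mem_interior]
  refine ⟨(fun v => v + y) '' interior V, image_mono interior_subset, ?_, v, hv, rfl⟩
  exact (Homeomorph.addRight y).isOpenMap _ isOpen_interior

/-- the function of both theorems -/
noncomputable def ff (p : ℝ) : ℝ := Real.sqrt 2 * fs (p ^ 2)

theorem ff_eq (p : ℝ) : ff p = 100 * Real.sqrt 2 * (1 + 40 / p ^ 4) := by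
  unfold ff fs dil
  rw [← pow_mul]
  ring

theorem ff_pos (p : ℝ) : 0 < ff p := by
  rw [ff_eq]; positivity

theorem ff_anti : AntitoneOn ff (Ioi 0) := by
  intro p hp q _ hpq
  rw [ff_eq, ff_eq]
  have hp' : (0:ℝ) < p := hp
  have h1 : p ^ 4 ≤ q ^ 4 := pow_le_pow_left₀ hp'.le hpq 4
  have h2 : 40 / q ^ 4 ≤ 40 / p ^ 4 := div_le_div_of_nonneg_left (by norm_num) (by positivity) h1
  apply mul_le_mul_of_nonneg_left _ (by positivity)
  linarith

end Pool.Agent.V11188.VB
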